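import Pool.Agent.W296.HL5

/-!
# Halving lines and convex layers

Definitions (in `Pool/Agent/W296/HL3.lean` and `Pool/Agent/W296/HL4.lean`, namespace
`Pool.Agent.W296.HL`):

* `Line a b c = {p | a * p.1 + b * p.2 = c}`,
* `GeneralPosition P`: no three distinct points of `P` on a common line,
* `IsBisector P L`: `L` is a line through two distinct points of `P` with exactly
  `|P| / 2 - 1` points of `P` on each open side,
* `peel S`: the points of `S` which lie in the convex hull of the other points of `S`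
  (the vertices of the convex hull are removed),
* `layers P`: the least `m` with `peel^[m] P = ∅`, the number of convex layers.
-/

set_option autoImplicit false

open Finset

namespace Pool.Agent.Results.MP_e17eac_co.ConvexLayers

open Pool.Agent.W296.HL

open scoped Classical in
/-- Upper bounds for the number of bisectors of a point set in general position:
1. by the convex layers (refined form, and `(m - 1/2) n`);
2. by a ranking `r` of the points such that every `p` is a vertex of the convex hull of the points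
   of rank at least `r p`;
3. if all but `#B` points are in convex position;
4. the bisectors joining a point outside a convex set `K` and a point in `K`;
5. if every two points are separated by a member of a family of convex sets. -/
theorem result :
    (∀ P : Finset (ℝ × ℝ), GeneralPosition P → Even #P →
      2 * {L | IsBisector P L}.ncard ≤ #P + 2 * ∑ j ∈ range (layers P), (#P - #(peel^[j] P)) ∧
      2 * {L | IsBisector P L}.ncard + #P ≤ 2 * layers P * #P) ∧
    (∀ P : Finset (ℝ × ℝ), GeneralPosition P → Even #P → ∀ (m : ℕ) (r : ℝ × ℝ → ℕ),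
      (∀ p ∈ P, r p ≤ m) →
      (∀ p ∈ P, p ∉ convexHull ℝ {q : ℝ × ℝ | q ∈ P ∧ r p ≤ r q ∧ q ≠ p}) →
      2 * {L | IsBisector P L}.ncard ≤ ∑ p ∈ P, (2 * (m - r p) + 1)) ∧
    (∀ A B : Finset (ℝ × ℝ), GeneralPosition (A ∪ B) → Even #(A ∪ B) → Disjoint A B →
      (∀ p ∈ A, p ∉ convexHull ℝ ((A : Set (ℝ × ℝ)) \ {p})) →
      2 * {L | IsBisector (A ∪ B) L}.ncard ≤ (2 * #B + 1) * #(A ∪ B)) ∧
    (∀ P : Finset (ℝ × ℝ), GeneralPosition P → Even #P → ∀ K : Set (ℝ × ℝ), Convex ℝ K →
      {L | IsBisector P L ∧ (∃ p ∈ P, p ∉ K ∧ p ∈ L) ∧ ∃ q ∈ P, q ∈ K ∧ q ∈ L}.ncard ≤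
        #{p ∈ P | p ∉ K}) ∧
    (∀ P : Finset (ℝ × ℝ), GeneralPosition P → Even #P →
      ∀ (s : ℕ) (K : Fin s → Set (ℝ × ℝ)), (∀ i, Convex ℝ (K i)) →
      (∀ p ∈ P, ∀ q ∈ P, p ≠ q → ∃ i, ¬ (p ∈ K i ↔ q ∈ K i)) →
      {L | IsBisector P L}.ncard ≤ ∑ i, #{p ∈ P | p ∉ K i}) :=
  ⟨fun _ hP hE => ⟨layer_bound (gen_of_gp hP) hE, layer_bound' (gen_of_gp hP) hE⟩,
    fun _ hP hE m r h1 h2 => ranking (gen_of_gp hP) hE m r h1 h2,
    fun _ _ hP hE hd hA => almost_convex (gen_of_gp hP) hE hd hA,
    fun _ hP hE _ hK => cut (gen_of_gp hP) hE hK,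
    fun _ hP hE _ K hK hs => separated (gen_of_gp hP) hE K hK hs⟩

end Pool.Agent.Results.MP_e17eac_co.ConvexLayers
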